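import Mathlib
import Pool.Agent.H.MP_4977a6_gt.Main

set_option autoImplicit false

namespace Pool.Agent.Results.MP_4977a6_gt.Counter

open Set Pool.Agent.H.MP_4977a6_gt

variable (Z : Type) [TopologicalSpace Z]

def OC (𝒰 : Set (Set Z)) : Prop := (∀ U ∈ 𝒰, IsOpen U) ∧ ⋃₀ 𝒰 = univ

def Menger : Prop := ∀ 𝒰 : ℕ → Set (Set Z), (∀ n, OC Z (𝒰 n)) →
  ∃ F : ℕ → Set (Set Z), (∀ n, (F n).Finite ∧ F n ⊆ 𝒰 n) ∧ ⋃₀ (⋃ n, F n) = univ

def BobM : Prop := ∃ σ : List (Set (Set Z)) → Set (Set Z) → Set (Set Z),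
  ∀ 𝒰 : ℕ → Set (Set Z), (∀ n, OC Z (𝒰 n)) →
    (∀ n, (σ (hist 𝒰 n) (𝒰 n)).Finite ∧ σ (hist 𝒰 n) (𝒰 n) ⊆ 𝒰 n) ∧
      ⋃₀ (⋃ n, σ (hist 𝒰 n) (𝒰 n)) = univ

def Legal (C : Set Z) (m : Set Z × (Z → Set Z)) : Prop :=
  (∀ x ∈ m.1, IsOpen (m.2 x) ∧ x ∈ m.2 x) ∧ m.1 ⊆ Cᶜ ∧ Cᶜ ⊆ ⋃ x ∈ m.1, m.2 x

def BobP : Prop := ∃ τ : List (Set Z × (Z → Set Z)) → Set Z × (Z → Set Z) → Set Z,
  (∀ l m, τ l m ⊆ m.1 ∧ IsClosed (τ l m) ∧ IsDiscrete (τ l m)) ∧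
  ∀ A : ℕ → Set Z × (Z → Set Z),
    (∀ n, Legal Z (⋃ k < n, ⋃ x ∈ τ (hist A k) (A k), (A k).2 x) (A n)) →
      ⋃ n, ⋃ x ∈ τ (hist A n) (A n), (A n).2 x = univ

lemma closed {D : Set X} (h : D.Countable) : IsClosed D := by
  obtain rfl | h1 := D.eq_empty_or_nonempty
  · exact isClosed_empty
  obtain ⟨f, rfl⟩ := h.exists_eq_range h1
  rw [← isOpen_compl_iff, ← iUnion_singleton_eq_range, compl_iUnion]
  exact hP _ fun _ => isOpen_compl_singleton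

theorem result : ∃ (Z : Type) (_ : TopologicalSpace Z), T35Space Z ∧
    Menger Z ∧ BobP Z ∧ ¬ BobM Z := by
  refine ⟨X, inferInstance, inferInstance, fun 𝒰 h => ?_, ?_, fun ⟨σ, h⟩ => ?_⟩
  · choose U h1 h2 using fun n x => eq_univ_iff_forall.1 (h n).2 x
    obtain ⟨x, hx⟩ := lind (V := fun x => ⋂ n, U n x) fun x =>
      ⟨hP _ fun n => (h n).1 _ (h1 n x), mem_iInter.2 fun n => h2 n x⟩
    exact ⟨fun n => {U n (x n)}, fun n => ⟨finite_singleton _, singleton_subset_iff.2 (h1 _ _)⟩,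
      eq_univ_of_forall fun y => (hx y).elim fun n hn =>
        ⟨_, mem_iUnion.2 ⟨n, rfl⟩, mem_iInter.1 hn n⟩⟩
  · have h (m : Set X × (X → Set X)) : ∃ D ⊆ m.1, D.Countable ∧
        (Legal X ∅ m → ⋃ x ∈ D, m.2 x = univ) := by
      by_cases h : Legal X ∅ m
      · obtain ⟨D, h1, h2, h3⟩ := isLindelof_univ.elim_countable_subcover_image
          (fun x hx => (h.1 x hx).1) (compl_empty ▸ h.2.2)
        exact ⟨D, h1, h2, fun _ => univ_subset_iff.1 h3⟩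
      · exact ⟨∅, empty_subset _, countable_empty, fun h' => (h h').elim⟩
    choose D h1 h2 h3 using h
    refine ⟨fun _ m => D m, fun _ m => ⟨h1 m, closed (h2 m), ?_⟩, fun A hA => ?_⟩
    · rw [isDiscrete_iff_forall_exists_isOpen]
      intro x hx
      refine ⟨(D m \ {x})ᶜ, (closed ((h2 m).mono sdiff_subset)).isOpen_compl, ?_⟩
      ext y
      by_cases hy : y = x <;> simp [hy, hx]
    · refine univ_subset_iff.1 ((h3 (A 0) ?_).ge.trans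
        (subset_iUnion (fun n => ⋃ x ∈ D (A n), (A n).2 x) 0))
      simpa using hA 0
  · obtain ⟨𝒰, h1, h2⟩ := two σ
    have := h 𝒰 fun n => ⟨(h1 n).1, (h1 n).2.1⟩
    exact h2 this.1 this.2

end Pool.Agent.Results.MP_4977a6_gt.Counter
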